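import Pool.Agent.helper74.MQ.Spec
import Pool.Agent.helper6.MP.PRONG
import Pool.Agent.helper90.MP.PRQ

/-!
# Project mq: LOCZ, the local coordinate at a zero
-/

set_option autoImplicit false

open Complex Metric Set Filter Topology MeasureTheory MPS

noncomputable section

namespace MQ

/-- the local coordinate for a general function with a zero of order `m ≥ 1`. -/
theorem LOCZ_gen (B B₁ : ℂ → ℂ) (ζ : ℂ) (m : ℕ) (hm : 1 ≤ m) (r₀ : ℝ) (hr₀ : 0 < r₀)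
    (hB₁ : DifferentiableOn ℂ B₁ (ball ζ r₀)) (hB₁ζ : B₁ ζ ≠ 0)
    (hBB : ∀ z ∈ ball ζ r₀, B z = (z - ζ) ^ m * B₁ z) :
    ∃ (h : ℂ → ℂ) (r s : ℝ), 0 < r ∧ 0 < s ∧ r ≤ r₀ ∧ DifferentiableOn ℂ h (ball ζ r) ∧
      h ζ = 0 ∧ InjOn h (ball ζ r) ∧ ball 0 s ⊆ h '' ball ζ r ∧
      ∀ z ∈ ball ζ r, ((m : ℂ) + 2) ^ 2 * h z ^ m * deriv h z ^ 2 = 4 * B z := by
  obtain ⟨r₁, hr₁, hr₁0, σ, hσ, hσ2⟩ := PRQ_root B₁ ζ r₀ 2 two_ne_zero hr₀ hB₁ hB₁ζ
  obtain ⟨K, K', hK, hODE⟩ := PRQ_K σ ζ m r₁ hσ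
  have hζ₁ : ζ ∈ ball ζ r₁ := mem_ball_self hr₁
  have hKζ : K ζ ≠ 0 := by
    intro h0
    have h1 := hODE ζ hζ₁
    rw [h0, sub_self, mul_zero, mul_zero, zero_mul, add_zero] at h1
    have h2 : σ ζ = 0 := by
      have := h1.symm
      simpa using this
    exact (hσ2 ζ hζ₁).2 h2
  have hKd : DifferentiableOn ℂ K (ball ζ r₁) := fun z hz =>
    (hK z hz).differentiableAt.differentiableWithinAt
  obtain ⟨r₂, hr₂, hr₂1, K₂, hK₂, hK₂p⟩ := PRQ_root (fun z => K z ^ 2) ζ r₁ (m + 2) (by omega) hr₁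
    (hKd.pow 2) (pow_ne_zero 2 hKζ)
  have hζ₂ : ζ ∈ ball ζ r₂ := mem_ball_self hr₂
  -- the local coordinate
  have hK₂a : AnalyticAt ℂ K₂ ζ := hK₂.analyticAt (isOpen_ball.mem_nhds hζ₂)
  have hha : AnalyticAt ℂ (fun z => (z - ζ) * K₂ z) ζ :=
    (analyticAt_id.sub analyticAt_const).mul hK₂a
  have hhd : HasDerivAt (fun z => (z - ζ) * K₂ z) (K₂ ζ) ζ := by
    have h1 := ((hasDerivAt_id ζ).sub_const ζ).fun_mul hK₂a.differentiableAt.hasDerivAt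
    simpa using h1
  have hh' : deriv (fun z => (z - ζ) * K₂ z) ζ ≠ 0 := by
    rw [hhd.deriv]
    exact (hK₂p ζ hζ₂).2
  obtain ⟨r₃, hr₃, hinj⟩ : ∃ r₃ > (0 : ℝ), InjOn (fun z => (z - ζ) * K₂ z) (ball ζ r₃) := by
    let i : ℂ ≃L[ℂ] ℂ := .unitsEquivAut ℂ (.mk0 _ hh')
    have hfd : HasStrictFDerivAt (fun z => (z - ζ) * K₂ z) i.toContinuousLinearMap ζ :=
      hha.hasStrictDerivAt
    have hx := HasStrictFDerivAt.mem_toOpenPartialHomeomorph_source hfd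
    have hinj := (hfd.toOpenPartialHomeomorph (fun z => (z - ζ) * K₂ z)).injOn
    rw [HasStrictFDerivAt.toOpenPartialHomeomorph_coe] at hinj
    obtain ⟨r₃, hr₃, h₃⟩ := Metric.isOpen_iff.1
      (hfd.toOpenPartialHomeomorph (fun z => (z - ζ) * K₂ z)).open_source ζ hx
    exact ⟨r₃, hr₃, hinj.mono h₃⟩
  have hrb : ∀ z ∈ ball ζ (min r₂ r₃), z ∈ ball ζ r₀ ∧ z ∈ ball ζ r₁ ∧ z ∈ ball ζ r₂ ∧
      z ∈ ball ζ r₃ := by
    intro z hz
    have h2 : z ∈ ball ζ r₂ := ball_subset_ball (min_le_left _ _) hz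
    have h1 : z ∈ ball ζ r₁ := ball_subset_ball hr₂1 h2
    exact ⟨ball_subset_ball hr₁0 h1, h1, h2, ball_subset_ball (min_le_right _ _) hz⟩
  have hrpos : 0 < min r₂ r₃ := lt_min hr₂ hr₃
  obtain ⟨s, hs, hsub⟩ : ∃ s > (0 : ℝ), ball 0 s ⊆
      (fun z => (z - ζ) * K₂ z) '' ball ζ (min r₂ r₃) := by
    have hmap : map (fun z => (z - ζ) * K₂ z) (𝓝 ζ) = 𝓝 ((ζ - ζ) * K₂ ζ) :=
      hha.hasStrictDerivAt.map_nhds_eq hh'
    have himg : (fun z => (z - ζ) * K₂ z) '' ball ζ (min r₂ r₃) ∈ 𝓝 ((ζ - ζ) * K₂ ζ) := by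
      rw [← hmap]
      exact image_mem_map (ball_mem_nhds ζ hrpos)
    rw [sub_self, zero_mul] at himg
    exact Metric.mem_nhds_iff.1 himg
  have hQd : ∀ z ∈ ball ζ r₁, HasDerivAt (fun z => (z - ζ) ^ (m + 2) * K z ^ 2)
      ((z - ζ) ^ (m + 1) * K z * (2 * σ z)) z := by
    intro z hz
    have h1 : HasDerivAt (fun z : ℂ => (z - ζ) ^ (m + 2))
        (((m + 2 : ℕ) : ℂ) * (z - ζ) ^ (m + 1)) z := by
      have := ((hasDerivAt_id z).sub_const ζ).fun_pow (m + 2)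
      simpa using this
    have h2 : HasDerivAt (fun z : ℂ => K z ^ 2) (2 * K z * K' z) z := by
      have := (hK z hz).fun_pow 2
      simpa using this
    have h3 := h1.mul h2
    have h4 : ((m + 2 : ℕ) : ℂ) * (z - ζ) ^ (m + 1) * K z ^ 2 +
        (z - ζ) ^ (m + 2) * (2 * K z * K' z) = (z - ζ) ^ (m + 1) * K z * (2 * σ z) := by
      rw [← hODE z hz]
      push_cast
      ring
    rw [h4] at h3
    exact h3
  have hhD : ∀ z ∈ ball ζ r₂, DifferentiableAt ℂ (fun z => (z - ζ) * K₂ z) z := fun z hz =>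
    ((differentiableAt_id.sub_const ζ).mul (hK₂.differentiableAt (isOpen_ball.mem_nhds hz)))
  refine ⟨fun z => (z - ζ) * K₂ z, min r₂ r₃, s, hrpos, hs,
    (min_le_left _ _).trans (hr₂1.trans hr₁0), ?_, ?_, ?_, hsub, ?_⟩
  · intro z hz
    exact (hhD z (hrb z hz).2.2.1).differentiableWithinAt
  · show (ζ - ζ) * K₂ ζ = 0
    rw [sub_self, zero_mul]
  · exact hinj.mono fun z hz => (hrb z hz).2.2.2
  · intro z hz
    obtain ⟨hz0, hz1, hz2, hz3⟩ := hrb z hz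
    by_cases hzζ : z = ζ
    · subst hzζ
      rw [hBB z hz0]
      show ((m : ℂ) + 2) ^ 2 * ((z - z) * K₂ z) ^ m * _ = _
      rw [sub_self, zero_mul, zero_pow (by omega)]
      ring
    · have hh0 : (z - ζ) * K₂ z ≠ 0 := mul_ne_zero (sub_ne_zero.2 hzζ) (hK₂p z hz2).2
      have hd1 : HasDerivAt (fun z => ((z - ζ) * K₂ z) ^ (m + 2))
          (((m + 2 : ℕ) : ℂ) * ((z - ζ) * K₂ z) ^ (m + 1) *
            deriv (fun z => (z - ζ) * K₂ z) z) z := by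
        have := (hhD z hz2).hasDerivAt.fun_pow (m + 2)
        simpa using this
      have hd2 : HasDerivAt (fun z => ((z - ζ) * K₂ z) ^ (m + 2))
          ((z - ζ) ^ (m + 1) * K z * (2 * σ z)) z := by
        refine (hQd z hz1).congr_of_eventuallyEq ?_
        filter_upwards [isOpen_ball.mem_nhds hz2] with w hw
        rw [mul_pow, (hK₂p w hw).1]
      have heq := hd1.unique hd2
      have hp : ((z - ζ) * K₂ z) ^ (m + 2) = (z - ζ) ^ (m + 2) * K z ^ 2 := by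
        rw [mul_pow, (hK₂p z hz2).1]
      have hkey : ((z - ζ) * K₂ z) ^ (m + 2) * (((m : ℂ) + 2) ^ 2 * ((z - ζ) * K₂ z) ^ m *
          deriv (fun z => (z - ζ) * K₂ z) z ^ 2) = ((z - ζ) * K₂ z) ^ (m + 2) * (4 * B z) := by
        have h1 : ((z - ζ) * K₂ z) ^ (m + 2) * (((m : ℂ) + 2) ^ 2 * ((z - ζ) * K₂ z) ^ m *
            deriv (fun z => (z - ζ) * K₂ z) z ^ 2) = (((m + 2 : ℕ) : ℂ) *
            ((z - ζ) * K₂ z) ^ (m + 1) * deriv (fun z => (z - ζ) * K₂ z) z) ^ 2 := by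
          push_cast
          ring
        rw [h1, heq, hp, hBB z hz0, ← (hσ2 z hz1).1]
        ring
      exact mul_left_cancel₀ (pow_ne_zero _ hh0) hkey

theorem LOCZ (hTP : TP_stmt) : LOCZ_stmt := by
  intro k _ b g hb hg ζ hζ
  obtain ⟨hm, B₁, r₀, hr₀, hB₁, hB₁ζ, hBB⟩ := PRONG_loc hTP b g ζ hb hζ
  obtain ⟨h1, h2, -⟩ := hTP k b g hb
  have hζb : ∀ i, ζ ≠ b i := by
    rintro i rfl
    exact h2 i hζ
  have hopen : IsOpen (⋂ i, ({b i}ᶜ : Set ℂ)) := isOpen_iInter_of_finite fun i => isOpen_compl_singleton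
  have hmem : ζ ∈ ⋂ i, ({b i}ᶜ : Set ℂ) := by
    rw [mem_iInter]
    exact fun i => hζb i
  obtain ⟨r₁, hr₁, hball⟩ := Metric.isOpen_iff.1 hopen ζ hmem
  obtain ⟨h, r, s, hr, hs, hrr, hd, h0, hi, hsu, he⟩ := LOCZ_gen (BB b g) B₁ ζ
    ((Ppoly b g).rootMultiplicity ζ) hm (min r₀ r₁) (lt_min hr₀ hr₁)
    (hB₁.mono (ball_subset_ball (min_le_left _ _))) hB₁ζ
    (fun z hz => hBB z (ball_subset_ball (min_le_left _ _) hz))
  refine ⟨h, r, s, hr, hs, hd, h0, hi, hsu, ?_, he⟩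
  intro z hz j
  have hz1 : z ∈ ball ζ r₁ := ball_subset_ball (hrr.trans (min_le_right _ _)) hz
  exact (mem_iInter.1 (hball hz1)) j

end MQ
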