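import Pool.Agent.helper74.MQ.Spec
import Pool.Agent.helper70.MQ.PLA

/-!
# Project mq: PLB, crossing pairs of trajectories (after helper70's PLA)
-/

set_option autoImplicit false

open Complex Metric Set Filter Topology MeasureTheory MPS

noncomputable section

namespace MQ

theorem PLB (hL : LDIS_stmt) (hD : DLOC_stmt) (hJ : JMP_stmt) : PLB_stmt := by
  intro k _ b g ψ hF i l l' S₀ S₁ S₂ S₃ y₀ y₁ y₂ y₃ e hil hil' hll' he ⟨χ₀, H0⟩ ⟨χ₁, H1⟩
    ⟨χ₂, H2⟩ ⟨χ₃, H3⟩ h02 h21 h13 h30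
  have h01 : y₀ < y₁ := h02.trans h21
  have hpi := Real.pi_pos
  have hpn : ∀ j, PN b g j (ψ j) 1 := fun j => (hF.mx j).pn
  set D : ℂ → ℂ := fun p => Nn χ₀ y₀ p - Nn χ₁ y₁ p with hDdef
  -- constancy
  have hDc : ∀ A : Set ℂ, IsPreconnected A → b i ∉ A → b l ∉ A →
      (∀ t : ℝ, χ₀ ((t : ℂ) + y₀ * I) ∉ A) → (∀ t : ℝ, χ₁ ((t : ℂ) + y₁ * I) ∉ A) →
      ∀ p ∈ A, ∀ p' ∈ A, D p = D p' :=
    (hD k b g ψ hF i l S₀ S₁ y₀ y₁ e χ₀ χ₁ hil he H0 H1).1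
  have hcont1 : ∀ p : ℂ, p ≠ b i → p ≠ b l → (∀ t : ℝ, χ₁ ((t : ℂ) + y₁ * I) ≠ p) →
      ContinuousAt (Nn χ₁ y₁) p :=
    (hD k b g ψ hF i l S₀ S₁ y₀ y₁ e χ₀ χ₁ hil he H0 H1).2
  -- disjointness
  have im0 : ∀ (t y : ℝ), ((t : ℂ) + y * I).im = y := by intro t y; simp
  have re0 : ∀ (t y : ℝ), ((t : ℂ) + y * I).re = t := by intro t y; simp
  -- trajectories of a strip to `l''` versus 0, 1
  have av0 : ∀ (l'' : ZMod k) (S : ℂ) (y : ℝ) (χ : ℂ → ℂ), i ≠ l'' →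
      IsStrip b g (ψ i) (ψ l'') S (y - e) (y + e) χ →
      ∀ w : ℂ, y - e < w.im → w.im < y + e → (∀ m : ℤ, y₀ - w.im ≠ m * (2 * Real.pi)) →
      ∀ t : ℝ, χ₀ ((t : ℂ) + y₀ * I) ≠ χ w := by
    intro l'' S y χ hl'' hS w hw1 hw2 hm t ht
    have h := (hL k b g ψ hF i l l'' S₀ S (y₀ - e) (y₀ + e) (y - e) (y + e) χ₀ χ hil hl'' H0 hS).1
      _ w (by rw [im0]; linarith) (by rw [im0]; linarith) hw1 hw2 ht
    obtain ⟨m, hm'⟩ := PLA_exp h
    rw [im0] at hm'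
    exact hm m hm'
  have av1 : ∀ (l'' : ZMod k) (S : ℂ) (y : ℝ) (χ : ℂ → ℂ), i ≠ l'' →
      IsStrip b g (ψ i) (ψ l'') S (y - e) (y + e) χ →
      ∀ w : ℂ, y - e < w.im → w.im < y + e → (∀ m : ℤ, y₁ - w.im ≠ m * (2 * Real.pi)) →
      ∀ t : ℝ, χ₁ ((t : ℂ) + y₁ * I) ≠ χ w := by
    intro l'' S y χ hl'' hS w hw1 hw2 hm t ht
    have h := (hL k b g ψ hF i l l'' S₁ S (y₁ - e) (y₁ + e) (y - e) (y + e) χ₁ χ hil hl'' H1 hS).1
      _ w (by rw [im0]; linarith) (by rw [im0]; linarith) hw1 hw2 ht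
    obtain ⟨m, hm'⟩ := PLA_exp h
    rw [im0] at hm'
    exact hm m hm'
  -- sectors at `b i`
  have seci : ∀ a c : ℝ, (∀ x : ℝ, a < x → x < c → (∀ m : ℤ, x - y₀ ≠ m * (2 * Real.pi)) ∧
      (∀ m : ℤ, x - y₁ ≠ m * (2 * Real.pi))) →
      ∀ p ∈ hat (ψ i) '' PLA_box a c, ∀ p' ∈ hat (ψ i) '' PLA_box a c, D p = D p' := by
    intro a c hx
    refine hDc _ (PLA_sector (hpn i) a c) ?_ ?_ ?_ ?_
    · rintro ⟨w, hw, hw'⟩
      exact PLA_hatav (hpn i) hw.1 i hw'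
    · rintro ⟨w, hw, hw'⟩
      exact PLA_hatav (hpn i) hw.1 l hw'
    · rintro t ⟨w, hw, hw'⟩
      have h := (hL k b g ψ hF i l l S₀ S₀ (y₀ - e) (y₀ + e) (y₀ - e) (y₀ + e) χ₀ χ₀ hil hil
        H0 H0).2.1 _ w (by rw [im0]; linarith) (by rw [im0]; linarith) hw.1 hw'.symm
      obtain ⟨m, hm'⟩ := PLA_exp h
      rw [im0] at hm'
      exact (hx _ hw.2.1 hw.2.2).1 m hm'
    · rintro t ⟨w, hw, hw'⟩
      have h := (hL k b g ψ hF i l l S₁ S₁ (y₁ - e) (y₁ + e) (y₁ - e) (y₁ + e) χ₁ χ₁ hil hil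
        H1 H1).2.1 _ w (by rw [im0]; linarith) (by rw [im0]; linarith) hw.1 hw'.symm
      obtain ⟨m, hm'⟩ := PLA_exp h
      rw [im0] at hm'
      exact (hx _ hw.2.1 hw.2.2).2 m hm'
  -- the cylinder of `b l'`
  have secl : ∀ p ∈ ψ l' '' ball 0 1, ∀ p' ∈ ψ l' '' ball 0 1, D p = D p' := by
    have hne : ∀ j : ZMod k, j ≠ l' → b j ∉ ψ l' '' ball 0 1 := by
      rintro j hj ⟨u, hu, huj⟩
      by_cases h0 : u = 0
      · rw [h0, (hpn l').val] at huj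
        exact hj (hF.inj huj).symm
      · exact (hpn l').av u hu h0 j huj
    refine hDc _ ?_ (hne i hil') (hne l hll') ?_ ?_
    · exact (convex_ball (0 : ℂ) 1).isPreconnected.image _ (hpn l').diff.continuousOn
    · intro t
      exact (hL k b g ψ hF i l l S₀ S₀ (y₀ - e) (y₀ + e) (y₀ - e) (y₀ + e) χ₀ χ₀ hil hil
        H0 H0).2.2.2 _ l' (by rw [im0]; linarith) (by rw [im0]; linarith) hil'.symm hll'.symm
    · intro t
      exact (hL k b g ψ hF i l l S₁ S₁ (y₁ - e) (y₁ + e) (y₁ - e) (y₁ + e) χ₁ χ₁ hil hil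
        H1 H1).2.2.2 _ l' (by rw [im0]; linarith) (by rw [im0]; linarith) hil'.symm hll'.symm
  have hatmem : ∀ w : ℂ, w.re < 0 → hat (ψ l') w ∈ ψ l' '' ball 0 1 := by
    intro w hw
    refine ⟨Complex.exp w, ?_, rfl⟩
    rw [mem_ball_zero_iff, Complex.norm_exp, ← Real.exp_zero]
    exact Real.exp_lt_exp.2 hw
  -- trajectories to `b l'`
  have traj : ∀ (S : ℂ) (y : ℝ) (χ : ℂ → ℂ), IsStrip b g (ψ i) (ψ l') S (y - e) (y + e) χ →
      (∀ m : ℤ, y₀ - y ≠ m * (2 * Real.pi)) →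
      (∀ m : ℤ, y₁ - y ≠ m * (2 * Real.pi)) → ∀ q ∈ ψ l' '' ball 0 1,
      D (hat (ψ i) (((-1 : ℝ) : ℂ) + (y : ℝ) * I)) = D q := by
    intro S y χ hS hm0 hm1 q hq
    have hT : D (χ (((-1 : ℝ) : ℂ) + y * I)) = D (χ (((max 0 S.re + 1 : ℝ) : ℂ) + y * I)) := by
      refine hDc _ (PLA_trajconn hS (y := y) (by linarith) (by linarith)) ?_ ?_ ?_ ?_ _
        ⟨-1, mem_univ _, rfl⟩ _ ⟨max 0 S.re + 1, mem_univ _, rfl⟩
      · rintro ⟨u, -, hu⟩
        exact hS.nat.av _ ⟨by rw [im0]; linarith, by rw [im0]; linarith⟩ i hu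
      · rintro ⟨u, -, hu⟩
        exact hS.nat.av _ ⟨by rw [im0]; linarith, by rw [im0]; linarith⟩ l hu
      · rintro u ⟨u', -, hu'⟩
        refine av0 l' S y χ hil' hS ((u' : ℂ) + y * I) (by rw [im0]; linarith)
          (by rw [im0]; linarith) ?_ u hu'.symm
        intro m; rw [im0]; exact hm0 m
      · rintro u ⟨u', -, hu'⟩
        refine av1 l' S y χ hil' hS ((u' : ℂ) + y * I) (by rw [im0]; linarith)
          (by rw [im0]; linarith) ?_ u hu'.symm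
        intro m; rw [im0]; exact hm1 m
    have e1 : χ (((-1 : ℝ) : ℂ) + (y : ℝ) * I) = hat (ψ i) (((-1 : ℝ) : ℂ) + (y : ℝ) * I) := by
      refine hS.left _ ?_ ?_ ?_
      · rw [im0]; linarith
      · rw [im0]; linarith
      · rw [re0]; norm_num
    have e2 : χ (((max 0 S.re + 1 : ℝ) : ℂ) + (y : ℝ) * I) =
        hat (ψ l') (S - (((max 0 S.re + 1 : ℝ) : ℂ) + (y : ℝ) * I)) := by
      refine hS.right _ ?_ ?_ ?_
      · rw [im0]; linarith
      · rw [im0]; linarith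
      · rw [re0]
        have := le_max_right 0 S.re
        linarith
    rw [e1, e2] at hT
    rw [hT]
    refine secl _ (hatmem _ ?_) q hq
    rw [Complex.sub_re, re0]
    have := le_max_right 0 S.re
    linarith
  -- periodicity of hats
  have hper : ∀ (j : ZMod k) (w : ℂ), hat (ψ j) (w + 2 * Real.pi * I) = hat (ψ j) w := by
    intro j w
    simp only [hat]
    rw [Complex.exp_periodic w]
  -- P versus the cylinder
  have hPQ' : ∀ p ∈ hat (ψ i) '' PLA_box y₀ y₁, ∀ q ∈ ψ l' '' ball 0 1, D p = D q := by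
    intro p hp q hq
    rw [← traj S₂ y₂ χ₂ H2 (fun m => PLA_nomul' (x := y₀ - y₂) (by linarith) (by linarith) m)
      (fun m => PLA_nomul (x := y₁ - y₂) (by linarith) (by linarith) m) q hq]
    refine seci y₀ y₁ ?_ p hp _ ?_
    · intro x hx1 hx2
      refine ⟨fun m => PLA_nomul (x := x - y₀) (by linarith) (by linarith) m,
        fun m => PLA_nomul' (x := x - y₁) (by linarith) (by linarith) m⟩
    · refine ⟨_, ⟨?_, ?_, ?_⟩, rfl⟩
      · rw [re0]; norm_num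
      · rw [im0]; linarith
      · rw [im0]; linarith
  -- Q versus the cylinder
  have hQQ' : ∀ p ∈ hat (ψ i) '' PLA_box y₁ (y₀ + 2 * Real.pi), ∀ q ∈ ψ l' '' ball 0 1,
      D p = D q := by
    intro p hp q hq
    rw [← traj S₃ y₃ χ₃ H3 (fun m => PLA_nomul' (x := y₀ - y₃) (by linarith) (by linarith) m)
      (fun m => PLA_nomul' (x := y₁ - y₃) (by linarith) (by linarith) m) q hq]
    refine seci y₁ (y₀ + 2 * Real.pi) ?_ p hp _ ?_
    · intro x hx1 hx2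
      refine ⟨fun m => PLA_nomul (x := x - y₀) (by linarith) (by linarith) m,
        fun m => PLA_nomul (x := x - y₁) (by linarith) (by linarith) m⟩
    · refine ⟨_, ⟨?_, ?_, ?_⟩, rfl⟩
      · rw [re0]; norm_num
      · rw [im0]; linarith
      · rw [im0]; linarith
  -- a point of the cylinder
  have hq0 : ψ l' 0 ∈ ψ l' '' ball 0 1 := ⟨0, mem_ball_self one_pos, rfl⟩
  set q0 := ψ l' 0 with hq0def
  -- the jump
  have J := hJ k b g ψ hF i l S₀ y₀ e (-1) χ₀ hil he (by norm_num) H0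
  have hst : ContinuousAt χ₀ (((-1 : ℝ) : ℂ) + (y₀ : ℝ) * I) := by
    have hop : IsOpen {w : ℂ | y₀ - e < w.im ∧ w.im < y₀ + e} :=
      (isOpen_lt continuous_const Complex.continuous_im).inter
        (isOpen_lt Complex.continuous_im continuous_const)
    refine (H0.nat.diff.continuousOn).continuousAt (hop.mem_nhds ?_)
    exact ⟨by rw [im0]; linarith, by rw [im0]; linarith⟩
  have hmem0 : ((-1 : ℝ) : ℂ) + (y₀ : ℝ) * I ∈ {w : ℂ | y₀ - e < w.im ∧ w.im < y₀ + e} :=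
    ⟨by rw [im0]; linarith, by rw [im0]; linarith⟩
  have hN1 : ContinuousAt (Nn χ₁ y₁) (χ₀ (((-1 : ℝ) : ℂ) + (y₀ : ℝ) * I)) := by
    refine hcont1 _ (H0.nat.av _ hmem0 i) (H0.nat.av _ hmem0 l) ?_
    refine av1 l S₀ y₀ χ₀ hil H0 _ (by rw [im0]; linarith) (by rw [im0]; linarith) ?_
    intro m
    rw [im0]
    exact PLA_nomul (x := y₁ - y₀) (by linarith) (by linarith) m
  have hcomp : ContinuousAt (fun w : ℂ => Nn χ₁ y₁ (χ₀ w)) (((-1 : ℝ) : ℂ) + (y₀ : ℝ) * I) :=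
    ContinuousAt.comp (f := χ₀) (g := Nn χ₁ y₁) hN1 hst
  have hplus : Tendsto (fun s : ℝ => ((-1 : ℝ) : ℂ) + (y₀ + s : ℝ) * I) (𝓝[>] 0)
      (𝓝 (((-1 : ℝ) : ℂ) + (y₀ : ℝ) * I)) := by
    have hc : Continuous (fun s : ℝ => ((-1 : ℝ) : ℂ) + (y₀ + s : ℝ) * I) := by fun_prop
    have := hc.tendsto 0
    simp only [add_zero] at this
    exact this.mono_left nhdsWithin_le_nhds
  have hminus : Tendsto (fun s : ℝ => ((-1 : ℝ) : ℂ) + (y₀ - s : ℝ) * I) (𝓝[>] 0)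
      (𝓝 (((-1 : ℝ) : ℂ) + (y₀ : ℝ) * I)) := by
    have hc : Continuous (fun s : ℝ => ((-1 : ℝ) : ℂ) + (y₀ - s : ℝ) * I) := by fun_prop
    have := hc.tendsto 0
    simp only [sub_zero] at this
    exact this.mono_left nhdsWithin_le_nhds
  have hNp := (hcomp.tendsto.comp hplus).sub (hcomp.tendsto.comp hminus)
  have hJ2 := J.sub hNp
  simp only [sub_self, sub_zero] at hJ2
  -- eventually zero
  have hev : ∀ᶠ s : ℝ in 𝓝[>] 0, s < min e (min (y₁ - y₀) (y₀ + 2 * Real.pi - y₁)) := by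
    have hm1 : 0 < min e (min (y₁ - y₀) (y₀ + 2 * Real.pi - y₁)) :=
      lt_min he (lt_min (by linarith) (by linarith))
    exact (eventually_lt_nhds hm1).filter_mono nhdsWithin_le_nhds
  have hz : Tendsto (fun s : ℝ => (0 : ℂ)) (𝓝[>] (0 : ℝ)) (𝓝 (2 * Real.pi * I)) := by
    refine hJ2.congr' ?_
    filter_upwards [hev, self_mem_nhdsWithin] with s hs hs0
    have hs0' : 0 < s := hs0
    have hse : s < e := lt_of_lt_of_le hs (min_le_left _ _)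
    have hs1 : s < y₁ - y₀ := lt_of_lt_of_le hs ((min_le_right _ _).trans (min_le_left _ _))
    have hs2 : s < y₀ + 2 * Real.pi - y₁ :=
      lt_of_lt_of_le hs ((min_le_right _ _).trans (min_le_right _ _))
    have e1 : χ₀ (((-1 : ℝ) : ℂ) + (y₀ + s : ℝ) * I) = hat (ψ i) (((-1 : ℝ) : ℂ) + (y₀ + s : ℝ) * I) := by
      refine H0.left _ ?_ ?_ ?_
      · rw [im0]; linarith
      · rw [im0]; linarith
      · rw [re0]; norm_num
    have e2 : χ₀ (((-1 : ℝ) : ℂ) + (y₀ - s : ℝ) * I) = hat (ψ i) (((-1 : ℝ) : ℂ) + (y₀ - s : ℝ) * I) := by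
      refine H0.left _ ?_ ?_ ?_
      · rw [im0]; linarith
      · rw [im0]; linarith
      · rw [re0]; norm_num
    have f1 : D (χ₀ (((-1 : ℝ) : ℂ) + (y₀ + s : ℝ) * I)) = D q0 := by
      rw [e1]
      refine hPQ' _ ⟨_, ⟨?_, ?_, ?_⟩, rfl⟩ _ hq0
      · rw [re0]; norm_num
      · rw [im0]; linarith
      · rw [im0]; linarith
    have f2 : D (χ₀ (((-1 : ℝ) : ℂ) + (y₀ - s : ℝ) * I)) = D q0 := by
      rw [e2, ← hper i]
      refine hQQ' _ ⟨_, ⟨?_, ?_, ?_⟩, rfl⟩ _ hq0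
      · rw [Complex.add_re, re0]
        simp
      · rw [Complex.add_im, im0]
        simp
        linarith
      · rw [Complex.add_im, im0]
        simp
        linarith
    have f3 : D (χ₀ (((-1 : ℝ) : ℂ) + (y₀ + s : ℝ) * I)) -
        D (χ₀ (((-1 : ℝ) : ℂ) + (y₀ - s : ℝ) * I)) = 0 := by rw [f1, f2, sub_self]
    simp only [hDdef] at f3
    simp only [Function.comp]
    rw [← f3]
    ring
  have hfin := tendsto_nhds_unique hz tendsto_const_nhds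
  have : (2 * Real.pi * I : ℂ) ≠ 0 := Complex.two_pi_I_ne_zero
  exact this hfin

end MQ
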